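import Pool.Agent.Y563.BS.Cut

set_option autoImplicit false

/-!
# SCC = CPP without the cycle cover property in a cyclically 4-edge-connected cubic graph

The graph is the (first) Blanusa snark: 18 vertices, 27 edges, cubic, girth 5, a dot product of two
Petersen graphs. Its shortest cycle cover and its shortest postman tour both have length 36. Its
vertex set is spanned by two disjoint 9-cycles such that the weight that is 1 on these two cycles
and 2 on the remaining perfect matching is eulerian and has no cycle cover with these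
multiplicities.
-/

namespace Pool.Agent.Results.MP_b9ebd9_co.BlanusaSnark

open Finset
open Pool.Agent.Results.MP_b9ebd9_co.ThreeConnectedCounterexample
open Pool.Agent.Y563.BS

/-- the contribution of an ordered pair to a cut weight -/
noncomputable def ff (u v : Fin 18) : ℕ :=
  @ite ℕ (G.Adj u v) (Classical.propDecidable _) (wt s(u, v)) 0

lemma ff_symm (u v : Fin 18) : ff u v = ff v u := by
  unfold ff
  rw [Sym2.eq_swap (a := u) (b := v)]
  by_cases h : G.Adj u v
  · rw [if_pos h, if_pos h.symm]
  · rw [if_neg h, if_neg (fun h' => h h'.symm)]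

lemma ff_self (u : Fin 18) : ff u u = 0 := by
  unfold ff
  rw [if_neg (G.loopless.irrefl u)]

lemma ff_eq (u v : Fin 18) : ff u v = if G.Adj u v then wt s(u, v) else 0 := by
  unfold ff
  by_cases h : G.Adj u v
  · rw [if_pos h, if_pos h]
  · rw [if_neg h, if_neg h]

lemma ff_degree (u : Fin 18) : Even (∑ v, ff u v) := by
  have h := Pool.Agent.Y563.BS.wt_degree u
  rw [Finset.sum_congr rfl (fun v _ => ff_eq u v)]
  exact h

lemma wt_eulerian : IsEulerianWeight G wt := by
  refine ⟨fun e _ => ?_, fun S => ?_⟩
  · unfold wt
    split_ifs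
    · exact Or.inr rfl
    · exact Or.inl rfl
  · exact @even_cut (Fin 18) _ (fun a b => Classical.propDecidable (a = b)) ff ff_symm ff_self
      ff_degree S

lemma scc_eq : SCC G = 36 := by
  unfold SCC
  apply le_antisymm
  · exact Nat.sInf_le ⟨fam, ⟨fam_cycles, fam_covers⟩, fam_length⟩
  · refine le_csInf ⟨36, fam, ⟨fam_cycles, fam_covers⟩, fam_length⟩ ?_
    rintro n ⟨F, ⟨hF, hcov⟩, rfl⟩
    exact cover_lower F hF hcov

lemma cpp_eq : CPP G = 36 := by
  unfold CPP
  apply le_antisymm
  · exact Nat.sInf_le ⟨_, tour, tour_covers, tour_length⟩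
  · refine le_csInf ⟨36, _, tour, tour_covers, tour_length⟩ ?_
    rintro n ⟨u, p, hp, rfl⟩
    exact tour_lower p hp

lemma cubic (v : Fin 18) : (G.neighborSet v).ncard = 3 := by
  have h : G.neighborSet v = ↑(nb v).toFinset := by
    ext w
    simp only [SimpleGraph.mem_neighborSet, Finset.mem_coe, List.mem_toFinset]
    exact ⟨adj_nb v w, nb_adj v w⟩
  rw [h, Set.ncard_coe_finset, List.toFinset_card_of_nodup (nb_nodup v), nb_len]

/-- **Q1 is answered in the negative by a cyclically 4-edge-connected cubic graph of girth 5**: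
there is a cubic graph `G` on 18 vertices which is 3-connected, in which every edge cut with at
least two vertices on both sides has at least four edges and every cycle has length at least five,
with `SCC(G) = CPP(G)` (both minima are attained, and equal to `36 = 2 |V|`), and which does not
have the cycle cover property. -/
theorem result : ∃ (V : Type) (_ : Fintype V) (G : SimpleGraph V),
    Fintype.card V = 18 ∧
    (∀ v, (G.neighborSet v).ncard = 3) ∧
    ThreeConnected G ∧
    (∀ S : Finset V, 2 ≤ S.card → S.card + 2 ≤ Fintype.card V →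
      4 ≤ cutWeight G (fun _ => 1) S) ∧
    (∀ (v : V) (p : G.Walk v v), p.IsCycle → 5 ≤ p.length) ∧
    (∃ F, IsCycleCover G F ∧ coverLength F = SCC G) ∧
    (∃ (u : V) (p : G.Walk u u), IsPostmanTour G p ∧ p.length = CPP G) ∧
    SCC G = 36 ∧ CPP G = 36 ∧ SCC G = CPP G ∧ ¬ CycleCoverProperty G := by
  refine ⟨Fin 18, inferInstance, G, by simp, cubic, G_three_connected, ?_, ?_, ?_, ?_, scc_eq,
    cpp_eq, ?_, ?_⟩
  · intro S h1 h2
    refine ess_four S h1 ?_
    have h3 : S.card + Sᶜ.card = 18 := by
      rw [Finset.card_add_card_compl]; rfl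
    rw [Fintype.card_fin] at h2
    omega
  · intro v p hp
    exact girth_five p hp
  · exact ⟨fam, ⟨fam_cycles, fam_covers⟩, by rw [scc_eq]; exact fam_length⟩
  · exact ⟨_, tour, tour_covers, by rw [cpp_eq]; exact tour_length⟩
  · rw [scc_eq, cpp_eq]
  · intro hprop
    obtain ⟨F, hF, h⟩ := hprop wt wt_eulerian
    refine not_covered F hF fun e he => ?_
    rw [← h e he]
    refine List.countP_congr fun C _ => ?_
    simp only [decide_eq_true_eq]

end Pool.Agent.Results.MP_b9ebd9_co.BlanusaSnark
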